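import Pool.Agent.helper37.NF.Spec

/-!
# Project NF (MP_7e34bc_co, Q2), row BIG (helper67)
-/

set_option autoImplicit false

namespace Pool.Agent.helper37.NF

open Finset Pool.Agent.NK

theorem BIG (h1 : BG1_stmt) (h2 : BG2_stmt) (h3 : NUM_stmt) (h4 : LOW_stmt) : BIG_stmt := by
  intro a b i j hi hj hij hab
  obtain ⟨s, hs⟩ : ∃ s, i + j = s + 3 := ⟨i + j - 3, by omega⟩
  have hs9 : 9 ≤ s := by omega
  have e1 := h1 a b i j s hi hj hs hab
  have e2 := h2 (a + b) s (by omega) (by omega)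
  have e3 := h3 s hs9
  have e4 := h4 (a + b) (s + 3) (by omega) (by omega)
  have e5 : s + 3 - 1 = s + 2 := by omega
  have e6 : s + 3 - 2 = s + 1 := by omega
  rw [hs] at e1
  rw [e5] at e4
  rw [hs, e6]
  have hC : (0 : ℝ) ≤ ((a + b).choose (s + 3) : ℝ) := Nat.cast_nonneg _
  have e7 := mul_le_mul_of_nonneg_right e3 hC
  rw [add_mul] at e7
  have key : (a.choose i : ℝ) * (b.choose j : ℝ) + (MV (a + b) (s + 1) : ℝ) ≤ (MV (a + b) (s + 3) : ℝ) :=
    (add_le_add e1 e2).trans (e7.trans e4)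
  exact_mod_cast key

end Pool.Agent.helper37.NF
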